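import Mathlib

set_option autoImplicit false

open Set Metric MeasureTheory Filter Topology ENNReal

namespace Pool.Agent.Results.MP_8e2100_an.PuncturedDisc

/-! ### Kobayashi metric and distance of a domain of `ℂ` -/

/-- `α` is admissible in the definition of the infinitesimal Kobayashi metric at `(z,v)` -/
def Adm (Ω : Set ℂ) (z v : ℂ) (α : ℝ) : Prop :=
  0 < α ∧ ∃ φ : ℂ → ℂ, DifferentiableOn ℂ φ (ball 0 1) ∧ MapsTo φ (ball 0 1) Ω ∧ φ 0 = z ∧
    (α : ℂ) * deriv φ 0 = v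

/-- infinitesimal Kobayashi metric `κ_Ω(z;v)` -/
noncomputable def kobInf (Ω : Set ℂ) (z v : ℂ) : ℝ≥0∞ := ⨅ (α : ℝ) (_ : Adm Ω z v α), ENNReal.ofReal α

/-- `γ` is a `C¹` path from `z` to `w` in `Ω` -/
def IsPath (Ω : Set ℂ) (z w : ℂ) (γ : ℝ → ℂ) : Prop :=
  ContDiff ℝ 1 γ ∧ γ 0 = z ∧ γ 1 = w ∧ ∀ t ∈ Icc (0 : ℝ) 1, γ t ∈ Ω

/-- Kobayashi distance `k_Ω(z,w)`: infimum of the Kobayashi lengths of the paths from `z` to `w` -/
noncomputable def kob (Ω : Set ℂ) (z w : ℂ) : ℝ≥0∞ :=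
  ⨅ (γ : ℝ → ℂ) (_ : IsPath Ω z w γ), ∫⁻ t in Icc (0 : ℝ) 1, kobInf Ω (γ t) (deriv γ t)

/-- Kobayashi ball -/
def kobBall (Ω : Set ℂ) (z : ℂ) (r : ℝ) : Set ℂ := {w | w ∈ Ω ∧ kob Ω z w < ENNReal.ofReal r}

/-- `k_Ω` is finite, separates points, and Cauchy sequences converge -/
def KobComplete (Ω : Set ℂ) : Prop :=
  (∀ z ∈ Ω, ∀ w ∈ Ω, kob Ω z w < ∞) ∧ (∀ z ∈ Ω, ∀ w ∈ Ω, kob Ω z w = 0 → z = w) ∧
  ∀ s : ℕ → ℂ, (∀ n, s n ∈ Ω) →
    (∀ ε : ℝ, 0 < ε → ∃ N, ∀ m ≥ N, ∀ n ≥ N, kob Ω (s m) (s n) < ENNReal.ofReal ε) →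
    ∃ z ∈ Ω, Tendsto (fun n => kob Ω z (s n)) atTop (𝓝 0)

/-- the sub-mean value inequality with exponent `p` (both sides multiplied by the volume) -/
def SubMean (Ω : Set ℂ) (p : ℝ) : Prop :=
  ∃ C : ℝ, 0 < C ∧ ∃ r₀ : ℝ, 0 < r₀ ∧ ∀ f : ℂ → ℂ, DifferentiableOn ℂ f Ω → ∀ z ∈ Ω, ∀ r : ℝ, 0 < r → r < r₀ →
    ENNReal.ofReal (‖f z‖ ^ p) * volume (kobBall Ω z r) ≤
      ENNReal.ofReal C * ∫⁻ w in kobBall Ω z r, ENNReal.ofReal (‖f w‖ ^ p)

/-! ### The punctured disc -/

/-- the punctured disc -/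
def PD : Set ℂ := {z | z ≠ 0 ∧ ‖z‖ < 1}

theorem log_neg {z : ℂ} (hz : z ∈ PD) : 0 < -Real.log ‖z‖ := by
  have := Real.log_neg (norm_pos_iff.2 hz.1) hz.2
  linarith

/-- density of the hyperbolic metric -/
noncomputable def dens (z : ℂ) : ℝ := 2 * ‖z‖ * (-Real.log ‖z‖)

theorem dens_pos {z : ℂ} (hz : z ∈ PD) : 0 < dens z := by
  have h1 := log_neg hz
  have h2 := norm_pos_iff.2 hz.1
  unfold dens; positivity

theorem dens_le_one {z : ℂ} (hz : z ∈ PD) : dens z ≤ 1 := by
  have h2 : 0 < ‖z‖ := norm_pos_iff.2 hz.1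
  have h1 : Real.log ((Real.exp 1 * ‖z‖)⁻¹) ≤ (Real.exp 1 * ‖z‖)⁻¹ - 1 := Real.log_le_sub_one_of_pos (by positivity)
  rw [Real.log_inv, Real.log_mul (Real.exp_pos 1).ne' h2.ne', Real.log_exp] at h1
  have h3 : -Real.log ‖z‖ ≤ (Real.exp 1 * ‖z‖)⁻¹ := by linarith
  have h4 : 2 * ‖z‖ * (-Real.log ‖z‖) ≤ 2 * ‖z‖ * (Real.exp 1 * ‖z‖)⁻¹ := by gcongr
  have h5 : 2 * ‖z‖ * (Real.exp 1 * ‖z‖)⁻¹ = 2 / Real.exp 1 := by field_simp
  have h6 : 2 / Real.exp 1 ≤ 1 := by
    rw [div_le_one (Real.exp_pos 1)]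
    have := Real.add_one_le_exp (1 : ℝ)
    linarith
  unfold dens
  linarith

/-- Schwarz–Pick for maps of the disc into the punctured disc -/
theorem adm_lower {z v : ℂ} {α : ℝ} (h : Adm PD z v α) : ‖v‖ ≤ α * dens z := by
  obtain ⟨hα, φ, hφ, hmaps, h0, hv⟩ := h
  have hz : z ∈ PD := by rw [← h0]; exact hmaps (mem_ball_self one_pos)
  have hne : ∀ x ∈ ball (0 : ℂ) 1, φ x ≠ 0 := fun x hx => (hmaps hx).1
  have hd : DifferentiableOn ℂ (deriv φ) (ball 0 1) := hφ.deriv isOpen_ball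
  have hq : DifferentiableOn ℂ (fun x => deriv φ x / φ x) (ball 0 1) := hd.div hφ hne
  obtain ⟨G0, hG0⟩ := hq.isExactOn_ball
  let G : ℂ → ℂ := fun x => G0 x - G0 0 + Complex.log z
  have hG : ∀ x ∈ ball (0 : ℂ) 1, HasDerivAt G (deriv φ x / φ x) x := fun x hx =>
    ((hG0 x hx).sub_const _).add_const _
  have hφd : ∀ x ∈ ball (0 : ℂ) 1, HasDerivAt φ (deriv φ x) x := fun x hx =>
    (hφ.differentiableAt (isOpen_ball.mem_nhds hx)).hasDerivAt
  have hG00 : G 0 = Complex.log z := by simp [G]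
  have hconst : ∀ x ∈ ball (0 : ℂ) 1, φ x * Complex.exp (-G x) = φ 0 * Complex.exp (-G 0) := by
    intro x hx
    have hder : ∀ y ∈ ball (0 : ℂ) 1, HasDerivAt (fun y => φ y * Complex.exp (-G y)) 0 y := by
      intro y hy
      have := (hφd y hy).mul ((hG y hy).neg.cexp)
      refine this.congr_deriv ?_
      have := hne y hy
      field_simp
      ring
    have := (convex_ball (0 : ℂ) 1).is_const_of_fderivWithin_eq_zero (𝕜 := ℂ) (f := fun y => φ y * Complex.exp (-G y))
      (fun y hy => (hder y hy).differentiableAt.differentiableWithinAt) (fun y hy => by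
        rw [fderivWithin_of_isOpen isOpen_ball hy]
        have := (hder y hy).hasFDerivAt.fderiv
        rw [this]; simp) hx (mem_ball_self one_pos)
    exact this
  have hφG : ∀ x ∈ ball (0 : ℂ) 1, φ x = Complex.exp (G x) := by
    intro x hx
    have h1 := hconst x hx
    rw [hG00, h0, Complex.exp_neg, Complex.exp_neg, Complex.exp_log hz.1, mul_inv_cancel₀ hz.1] at h1
    have h2 := Complex.exp_ne_zero (G x)
    field_simp at h1
    exact h1
  have hRe : ∀ x ∈ ball (0 : ℂ) 1, (G x).re < 0 := by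
    intro x hx
    have h1 := (hmaps hx).2
    rw [hφG x hx, Complex.norm_exp] at h1
    exact Real.exp_lt_one_iff.1 h1
  set a := Complex.log z with ha
  have hare : a.re = Real.log ‖z‖ := Complex.log_re z
  have ha0 : a.re < 0 := by have := log_neg hz; rw [hare]; linarith
  let q : ℂ → ℂ := fun x => (G x - a) / (G x + (starRingEnd ℂ) a)
  have hden : ∀ x ∈ ball (0 : ℂ) 1, G x + (starRingEnd ℂ) a ≠ 0 := by
    intro x hx h
    have := congrArg Complex.re h
    simp only [Complex.add_re, Complex.conj_re, Complex.zero_re] at this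
    have := hRe x hx
    linarith
  have hqd : DifferentiableOn ℂ q (ball 0 1) := by
    intro x hx
    exact (((hG x hx).sub_const a).differentiableAt.div ((hG x hx).add_const _).differentiableAt (hden x hx)).differentiableWithinAt
  have hq0 : q 0 = 0 := by simp only [q]; rw [hG00, sub_self, zero_div]
  have hqm : MapsTo q (ball 0 1) (ball (q 0) 1) := by
    intro x hx
    rw [hq0, mem_ball_zero_iff]
    simp only [q]
    rw [norm_div, div_lt_one (norm_pos_iff.2 (hden x hx))]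
    refine lt_of_pow_lt_pow_left₀ 2 (norm_nonneg _) ?_
    rw [← Complex.normSq_eq_norm_sq, ← Complex.normSq_eq_norm_sq, Complex.normSq_apply, Complex.normSq_apply]
    simp only [Complex.sub_re, Complex.sub_im, Complex.add_re, Complex.add_im, Complex.conj_re, Complex.conj_im]
    have := mul_pos_of_neg_of_neg (hRe x hx) ha0
    nlinarith
  have hS := Complex.norm_deriv_le_one_of_mapsTo_ball hqd (hqm.mono_right ball_subset_closedBall) one_pos
  have hqder : HasDerivAt q ((deriv φ 0 / φ 0) / (a + (starRingEnd ℂ) a)) 0 := by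
    have hx := mem_ball_self (x := (0 : ℂ)) one_pos
    have := ((hG 0 hx).sub_const a).div ((hG 0 hx).add_const ((starRingEnd ℂ) a)) (hden 0 hx)
    refine this.congr_deriv ?_
    have hd0 := hden 0 hx
    rw [hG00] at hd0 ⊢
    rw [sub_self, zero_mul, sub_zero]
    field_simp
  rw [hqder.deriv, norm_div, norm_div, h0] at hS
  have hna : ‖a + (starRingEnd ℂ) a‖ = 2 * (-Real.log ‖z‖) := by
    rw [Complex.add_conj, Complex.norm_real, Real.norm_eq_abs, abs_of_neg (by linarith), hare]; ring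
  rw [hna] at hS
  have hzp : 0 < ‖z‖ := norm_pos_iff.2 hz.1
  have hl := log_neg hz
  rw [div_div, div_le_one (by positivity)] at hS
  rw [← hv, norm_mul, Complex.norm_real, Real.norm_eq_abs, abs_of_pos hα]
  unfold dens
  gcongr
  linarith

theorem kobInf_lower (z v : ℂ) (hz : z ∈ PD) : ENNReal.ofReal (‖v‖ / dens z) ≤ kobInf PD z v := by
  unfold kobInf
  refine le_iInf₂ fun α hα => ?_
  apply ENNReal.ofReal_le_ofReal
  rw [div_le_iff₀ (dens_pos hz)]
  exact adm_lower hα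

theorem kobInf_upper (z v : ℂ) (hz : z ∈ PD) : kobInf PD z v ≤ ENNReal.ofReal (‖v‖ / dens z) := by
  have hzp : 0 < ‖z‖ := norm_pos_iff.2 hz.1
  have hL := log_neg hz
  set L := -Real.log ‖z‖ with hLd
  rcases eq_or_ne v 0 with hv | hv
  · subst hv
    rw [norm_zero, zero_div, ENNReal.ofReal_zero]
    refine _root_.le_of_forall_pos_le_add ?_
    intro ε hε
    rw [zero_add]
    rcases eq_or_ne ε ∞ with h | h
    · rw [h]; exact le_top
    · have hε' : 0 < ε.toReal := ENNReal.toReal_pos hε.ne' h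
      refine (iInf₂_le ε.toReal ⟨hε', fun _ => z, differentiableOn_const _, fun _ _ => hz, rfl, by simp⟩).trans ?_
      rw [ENNReal.ofReal_toReal h]
  · have hvp : 0 < ‖v‖ := norm_pos_iff.2 hv
    have hα : 0 < ‖v‖ / dens z := div_pos hvp (dens_pos hz)
    let c : ℂ := -(v / z) * ((‖z‖ / ‖v‖ : ℝ) : ℂ)
    have hc : ‖c‖ = 1 := by
      simp only [c]
      rw [norm_mul, norm_neg, norm_div, Complex.norm_real, Real.norm_eq_abs, abs_of_pos (by positivity)]
      field_simp
    have hcx : ∀ x ∈ ball (0 : ℂ) 1, ‖c * x‖ < 1 := by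
      intro x hx
      rw [norm_mul, hc, one_mul]
      simpa using hx
    have hne : ∀ x ∈ ball (0 : ℂ) 1, 1 - c * x ≠ 0 := by
      intro x hx h
      have h1 : c * x = 1 := (sub_eq_zero.1 h).symm
      have := hcx x hx
      rw [h1, norm_one] at this
      exact lt_irrefl _ this
    let φ : ℂ → ℂ := fun x => Complex.exp (-(L : ℂ) * ((1 + c * x) / (1 - c * x)) + ((Complex.log z).im : ℂ) * Complex.I)
    have hder : ∀ x ∈ ball (0 : ℂ) 1, HasDerivAt φ (φ x * (-(L : ℂ) * ((c * (1 - c * x) - (1 + c * x) * (-c)) / (1 - c * x) ^ 2))) x := by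
      intro x hx
      have h1 : HasDerivAt (fun x : ℂ => 1 + c * x) c x := by
        simpa using ((hasDerivAt_id x).const_mul c).const_add 1
      have h2 : HasDerivAt (fun x : ℂ => 1 - c * x) (-c) x := by
        simpa using ((hasDerivAt_id x).const_mul c).const_sub 1
      exact (((h1.div h2 (hne x hx)).const_mul (-(L : ℂ))).add_const _).cexp
    have hφ0 : φ 0 = z := by
      simp only [φ]
      rw [mul_zero, add_zero, sub_zero, div_one, mul_one]
      have : -(L : ℂ) + ((Complex.log z).im : ℂ) * Complex.I = Complex.log z := by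
        apply Complex.ext
        · simp [Complex.log_re, hLd]
        · simp
      rw [this, Complex.exp_log hz.1]
    refine iInf₂_le (‖v‖ / dens z) ⟨hα, φ, ?_, ?_, hφ0, ?_⟩
    · exact fun x hx => (hder x hx).differentiableAt.differentiableWithinAt
    · intro x hx
      refine ⟨Complex.exp_ne_zero _, ?_⟩
      simp only [φ]
      rw [Complex.norm_exp, Real.exp_lt_one_iff]
      have h1 : (-(L : ℂ) * ((1 + c * x) / (1 - c * x)) + ((Complex.log z).im : ℂ) * Complex.I).re =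
          -(L * ((1 + c * x) / (1 - c * x)).re) := by
        rw [Complex.add_re, ← Complex.ofReal_neg, Complex.re_ofReal_mul]
        simp
      rw [h1]
      have h2 : ((1 + c * x) / (1 - c * x)).re = (1 - Complex.normSq (c * x)) / Complex.normSq (1 - c * x) := by
        rw [Complex.div_re, ← add_div]
        congr 1
        simp only [Complex.add_re, Complex.sub_re, Complex.add_im, Complex.sub_im, Complex.one_re, Complex.one_im, Complex.normSq_apply]
        ring
      rw [h2]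
      have h3 : Complex.normSq (c * x) < 1 := by
        rw [Complex.normSq_eq_norm_sq]
        have := hcx x hx
        nlinarith [norm_nonneg (c * x)]
      have h4 : 0 < Complex.normSq (1 - c * x) := Complex.normSq_pos.2 (hne x hx)
      have h5 : 0 < (1 - Complex.normSq (c * x)) / Complex.normSq (1 - c * x) := div_pos (by linarith) h4
      have := mul_pos hL h5
      linarith
    · rw [(hder 0 (mem_ball_self one_pos)).deriv, hφ0]
      simp only [mul_zero, sub_zero, add_zero, mul_one, one_pow, div_one, one_mul]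
      unfold dens
      rw [← hLd]
      simp only [c]
      have h1 : (‖z‖ : ℂ) ≠ 0 := by exact_mod_cast hzp.ne'
      have h2 : (‖v‖ : ℂ) ≠ 0 := by exact_mod_cast hvp.ne'
      have h3 : (L : ℂ) ≠ 0 := by exact_mod_cast hL.ne'
      have h4 := hz.1
      push_cast
      field_simp
      ring

/-! ### Length estimates -/

theorem kob_le_of_path {z w : ℂ} {γ : ℝ → ℂ} (hγ : IsPath PD z w γ) (K : ℝ)
    (hK : ∀ t ∈ Icc (0 : ℝ) 1, ‖deriv γ t‖ ≤ K * dens (γ t)) : kob PD z w ≤ ENNReal.ofReal K := by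
  refine (iInf₂_le γ hγ).trans ?_
  calc ∫⁻ t in Icc (0 : ℝ) 1, kobInf PD (γ t) (deriv γ t) ≤ ∫⁻ _ in Icc (0 : ℝ) 1, ENNReal.ofReal K := by
        refine setLIntegral_mono measurable_const fun t ht => ?_
        refine (kobInf_upper _ _ (hγ.2.2.2 t ht)).trans (ENNReal.ofReal_le_ofReal ?_)
        rw [div_le_iff₀ (dens_pos (hγ.2.2.2 t ht))]
        exact hK t ht
    _ = ENNReal.ofReal K := by simp

/-- the continuous integrand -/
noncomputable def mm (γ : ℝ → ℂ) (t : ℝ) : ℝ := ‖deriv γ t‖ / dens (γ t)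

theorem mm_cont {z w : ℂ} {γ : ℝ → ℂ} (hγ : IsPath PD z w γ) : ContinuousOn (mm γ) (Icc 0 1) := by
  unfold mm dens
  have h1 : Continuous (deriv γ) := hγ.1.continuous_deriv le_rfl
  have h2 : Continuous γ := hγ.1.continuous
  refine ContinuousOn.div h1.norm.continuousOn ?_ fun t ht => (dens_pos (hγ.2.2.2 t ht)).ne'
  refine (continuous_const.mul h2.norm).continuousOn.mul ?_
  refine ContinuousOn.neg (ContinuousOn.log h2.norm.continuousOn fun t ht => ?_)
  exact (norm_pos_iff.2 (hγ.2.2.2 t ht).1).ne'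

theorem len_ge {z w : ℂ} {γ : ℝ → ℂ} (hγ : IsPath PD z w γ) (d : ℝ) (hd : d ≤ ∫ t in (0 : ℝ)..1, mm γ t) :
    ENNReal.ofReal d ≤ ∫⁻ t in Icc (0 : ℝ) 1, kobInf PD (γ t) (deriv γ t) := by
  have hint : IntegrableOn (mm γ) (Icc 0 1) := (mm_cont hγ).integrableOn_compact isCompact_Icc
  have h1 : ENNReal.ofReal (∫ t in Icc (0 : ℝ) 1, mm γ t) = ∫⁻ t in Icc (0 : ℝ) 1, ENNReal.ofReal (mm γ t) := by
    refine ofReal_integral_eq_lintegral_ofReal hint ?_
    rw [EventuallyLE, ae_restrict_iff' measurableSet_Icc]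
    refine Eventually.of_forall fun t ht => ?_
    exact div_nonneg (norm_nonneg _) (dens_pos (hγ.2.2.2 t ht)).le
  have h2 : ∫ t in (0 : ℝ)..1, mm γ t = ∫ t in Icc (0 : ℝ) 1, mm γ t := by
    rw [intervalIntegral.integral_of_le zero_le_one, integral_Icc_eq_integral_Ioc]
  rw [h2] at hd
  refine (ENNReal.ofReal_le_ofReal hd).trans ?_
  rw [h1]
  refine setLIntegral_mono_ae' measurableSet_Icc (Eventually.of_forall fun t ht => ?_)
  exact kobInf_lower _ _ (hγ.2.2.2 t ht)

theorem kob_ge_norm (z w : ℂ) : ENNReal.ofReal ‖w - z‖ ≤ kob PD z w := by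
  unfold kob
  refine le_iInf₂ fun γ hγ => ?_
  refine len_ge hγ _ ?_
  have h1 : Continuous (deriv γ) := hγ.1.continuous_deriv le_rfl
  have hdiff : ∀ t, HasDerivAt γ (deriv γ t) t := fun t => (hγ.1.differentiable one_ne_zero t).hasDerivAt
  have h2 : ∫ t in (0 : ℝ)..1, deriv γ t = w - z := by
    rw [intervalIntegral.integral_eq_sub_of_hasDerivAt (fun t _ => hdiff t) (h1.intervalIntegrable _ _), hγ.2.2.1, hγ.2.1]
  rw [← h2]
  refine (intervalIntegral.norm_integral_le_integral_norm zero_le_one).trans ?_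
  refine intervalIntegral.integral_mono_on zero_le_one (h1.norm.intervalIntegrable _ _) ?_ fun t ht => ?_
  · exact ((mm_cont hγ).mono (by rw [uIcc_of_le zero_le_one])).intervalIntegrable
  · unfold mm
    rw [le_div_iff₀ (dens_pos (hγ.2.2.2 t ht))]
    have := dens_le_one (hγ.2.2.2 t ht)
    nlinarith [norm_nonneg (deriv γ t)]

/-- `log log (1/|z|)` -/
noncomputable def LL (z : ℂ) : ℝ := Real.log (-Real.log ‖z‖)

theorem kob_ge_LL (z w : ℂ) : ENNReal.ofReal (|LL w - LL z| / 2) ≤ kob PD z w := by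
  unfold kob
  refine le_iInf₂ fun γ hγ => ?_
  refine len_ge hγ _ ?_
  have h1 : Continuous (deriv γ) := hγ.1.continuous_deriv le_rfl
  have h2 : Continuous γ := hγ.1.continuous
  have hdiff : ∀ t, HasDerivAt γ (deriv γ t) t := fun t => (hγ.1.differentiable one_ne_zero t).hasDerivAt
  let D : ℝ → ℝ := fun t => (-(1 / 2 * (2 * inner ℝ (γ t) (deriv γ t) / ‖γ t‖ ^ 2))) / (-Real.log ‖γ t‖)
  have hD : ∀ t ∈ uIcc (0 : ℝ) 1, HasDerivAt (fun t => LL (γ t)) (D t) t := by
    intro t ht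
    rw [uIcc_of_le zero_le_one] at ht
    have hm := hγ.2.2.2 t ht
    have hp : 0 < ‖γ t‖ := norm_pos_iff.2 hm.1
    have h3 : HasDerivAt (fun t => ‖γ t‖ ^ 2) (2 * inner ℝ (γ t) (deriv γ t)) t := (hdiff t).norm_sq
    have h4 : HasDerivAt (fun t => 1 / 2 * Real.log (‖γ t‖ ^ 2)) (1 / 2 * (2 * inner ℝ (γ t) (deriv γ t) / ‖γ t‖ ^ 2)) t :=
      (h3.log (by positivity)).const_mul _
    have h5 : (fun t => 1 / 2 * Real.log (‖γ t‖ ^ 2)) = fun t => Real.log ‖γ t‖ := by
      funext s; rw [Real.log_pow]; push_cast; ring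
    rw [h5] at h4
    exact h4.neg.log (log_neg hm).ne'
  have hDc : ContinuousOn D (uIcc 0 1) := by
    rw [uIcc_of_le zero_le_one]
    refine ContinuousOn.div ?_ ?_ fun t ht => (log_neg (hγ.2.2.2 t ht)).ne'
    · refine ContinuousOn.neg (continuousOn_const.mul ?_)
      refine ContinuousOn.div (continuous_const.mul (h2.inner h1)).continuousOn (h2.norm.pow 2).continuousOn fun t ht => ?_
      have := norm_pos_iff.2 (hγ.2.2.2 t ht).1
      positivity
    · refine ContinuousOn.neg (ContinuousOn.log h2.norm.continuousOn fun t ht => ?_)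
      exact (norm_pos_iff.2 (hγ.2.2.2 t ht).1).ne'
  have h6 : ∫ t in (0 : ℝ)..1, D t = LL w - LL z := by
    rw [intervalIntegral.integral_eq_sub_of_hasDerivAt hD hDc.intervalIntegrable, hγ.2.2.1, hγ.2.1]
  rw [← h6, ← Real.norm_eq_abs]
  have h7 : ‖∫ t in (0 : ℝ)..1, D t‖ ≤ ∫ t in (0 : ℝ)..1, 2 * mm γ t := by
    refine (intervalIntegral.norm_integral_le_integral_norm zero_le_one).trans ?_
    refine intervalIntegral.integral_mono_on zero_le_one hDc.intervalIntegrable.norm ?_ fun t ht => ?_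
    · exact (((mm_cont hγ).mono (by rw [uIcc_of_le zero_le_one])).intervalIntegrable).const_mul 2
    · have hm := hγ.2.2.2 t ht
      have hp : 0 < ‖γ t‖ := norm_pos_iff.2 hm.1
      have hl := log_neg hm
      simp only [D, mm]
      rw [norm_div, norm_neg, Real.norm_eq_abs, Real.norm_eq_abs, abs_of_pos hl]
      have h8 : |1 / 2 * (2 * inner ℝ (γ t) (deriv γ t) / ‖γ t‖ ^ 2)| ≤ ‖deriv γ t‖ / ‖γ t‖ := by
        have h9 : 1 / 2 * (2 * inner ℝ (γ t) (deriv γ t) / ‖γ t‖ ^ 2) = inner ℝ (γ t) (deriv γ t) / ‖γ t‖ ^ 2 := by ring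
        rw [h9, abs_div, abs_of_pos (by positivity : 0 < ‖γ t‖ ^ 2), div_le_div_iff₀ (by positivity) hp]
        have := abs_real_inner_le_norm (γ t) (deriv γ t)
        nlinarith
      unfold dens
      calc |1 / 2 * (2 * inner ℝ (γ t) (deriv γ t) / ‖γ t‖ ^ 2)| / -Real.log ‖γ t‖
          ≤ (‖deriv γ t‖ / ‖γ t‖) / -Real.log ‖γ t‖ := by gcongr
        _ = 2 * (‖deriv γ t‖ / (2 * ‖γ t‖ * -Real.log ‖γ t‖)) := by field_simp
  rw [intervalIntegral.integral_const_mul] at h7
  linarith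

/-- paths `exp((1-t)a + tb)` -/
theorem kob_le_exp (a b : ℂ) (m : ℝ) (hm : 0 < m) (hma : m ≤ -a.re) (hmb : m ≤ -b.re) :
    kob PD (Complex.exp a) (Complex.exp b) ≤ ENNReal.ofReal (‖b - a‖ / (2 * m)) := by
  let γ : ℝ → ℂ := fun t => Complex.exp (a + (t : ℂ) * (b - a))
  have hre : ∀ t : ℝ, (a + (t : ℂ) * (b - a)).re = a.re + t * (b.re - a.re) := by
    intro t; rw [Complex.add_re, Complex.re_ofReal_mul, Complex.sub_re]
  have hle : ∀ t ∈ Icc (0 : ℝ) 1, (a + (t : ℂ) * (b - a)).re ≤ -m := by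
    intro t ht
    rw [hre]
    have h1 := ht.1
    have h2 := ht.2
    nlinarith
  have hnorm : ∀ t : ℝ, ‖γ t‖ = Real.exp ((a + (t : ℂ) * (b - a)).re) := fun t => Complex.norm_exp _
  have hder : ∀ t : ℝ, HasDerivAt γ (γ t * (b - a)) t := by
    intro t
    have h1 : HasDerivAt (fun t : ℝ => a + (t : ℂ) * (b - a)) (1 * (b - a)) t :=
      ((hasDerivAt_id t).ofReal_comp.mul_const (b - a)).const_add a
    have := h1.cexp
    rw [one_mul] at this
    exact this
  have hpath : IsPath PD (Complex.exp a) (Complex.exp b) γ := by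
    refine ⟨?_, by simp [γ], by simp [γ], fun t ht => ⟨Complex.exp_ne_zero _, ?_⟩⟩
    · have : ContDiff ℝ 1 fun t : ℝ => Complex.exp (a + (t : ℂ) * (b - a)) := by
        have h1 : ContDiff ℝ 1 fun t : ℝ => a + (t : ℂ) * (b - a) :=
          contDiff_const.add (Complex.ofRealCLM.contDiff.mul contDiff_const)
        exact h1.cexp
      exact this
    · rw [hnorm, Real.exp_lt_one_iff]
      have := hle t ht
      linarith
  refine kob_le_of_path hpath _ fun t ht => ?_
  rw [(hder t).deriv, norm_mul]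
  unfold dens
  rw [hnorm, Real.log_exp]
  have h1 := hle t ht
  have h2 : m ≤ -(a + (t : ℂ) * (b - a)).re := by linarith
  have h3 := Real.exp_pos (a + (t : ℂ) * (b - a)).re
  have h4 := norm_nonneg (b - a)
  rw [div_mul_eq_mul_div, le_div_iff₀ (by positivity)]
  have h5 : Real.exp (a + (t : ℂ) * (b - a)).re * ‖b - a‖ * (2 * m) ≤
      Real.exp (a + (t : ℂ) * (b - a)).re * ‖b - a‖ * (2 * (-(a + (t : ℂ) * (b - a)).re)) := by gcongr
  refine h5.trans (le_of_eq ?_)
  ring

/-! ### Topology of the punctured disc -/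

theorem PD_isOpen : IsOpen PD := by
  have : PD = {(0 : ℂ)}ᶜ ∩ {z : ℂ | ‖z‖ < 1} := by
    ext z; rfl
  rw [this]
  exact isOpen_compl_singleton.inter (isOpen_lt continuous_norm continuous_const)

theorem PD_eq_image : PD = Complex.exp '' {a : ℂ | a.re < 0} := by
  ext z
  constructor
  · intro hz
    refine ⟨Complex.log z, ?_, Complex.exp_log hz.1⟩
    change (Complex.log z).re < 0
    rw [Complex.log_re]
    have := log_neg hz
    linarith
  · rintro ⟨a, ha, rfl⟩
    refine ⟨Complex.exp_ne_zero _, ?_⟩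
    rw [Complex.norm_exp, Real.exp_lt_one_iff]
    exact ha

theorem PD_conn : IsConnected PD := by
  refine ⟨⟨(1 / 2 : ℂ), by norm_num, by norm_num⟩, ?_⟩
  rw [PD_eq_image]
  refine IsPreconnected.image ?_ _ Complex.continuous_exp.continuousOn
  exact (convex_halfSpace_re_lt 0).isPreconnected

theorem PD_bdd : Bornology.IsBounded PD := by
  refine (isBounded_ball (x := (0 : ℂ)) (r := 1)).subset fun z hz => ?_
  rw [mem_ball_zero_iff]; exact hz.2

/-! ### Completeness -/

theorem kob_lt_top {z w : ℂ} (hz : z ∈ PD) (hw : w ∈ PD) : kob PD z w < ∞ := by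
  have h1 := log_neg hz
  have h2 := log_neg hw
  have h := kob_le_exp (Complex.log z) (Complex.log w) (min (-Real.log ‖z‖) (-Real.log ‖w‖)) (lt_min h1 h2)
    (by rw [Complex.log_re]; exact min_le_left _ _) (by rw [Complex.log_re]; exact min_le_right _ _)
  rw [Complex.exp_log hz.1, Complex.exp_log hw.1] at h
  exact h.trans_lt ENNReal.ofReal_lt_top

theorem kob_sep {z w : ℂ} (h : kob PD z w = 0) : z = w := by
  have h1 := kob_ge_norm z w
  rw [h] at h1
  have h2 : ‖w - z‖ ≤ 0 := by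
    by_contra h3
    push Not at h3
    have := ENNReal.ofReal_pos.2 h3
    exact absurd h1 (not_le.2 this)
  have h3 : w - z = 0 := norm_le_zero_iff.1 h2
  exact (sub_eq_zero.1 h3).symm

theorem kob_cauchy (s : ℕ → ℂ) (hs : ∀ n, s n ∈ PD)
    (hc : ∀ ε : ℝ, 0 < ε → ∃ N, ∀ m ≥ N, ∀ n ≥ N, kob PD (s m) (s n) < ENNReal.ofReal ε) :
    ∃ z ∈ PD, Tendsto (fun n => kob PD z (s n)) atTop (𝓝 0) := by
  have hC : CauchySeq s := by
    rw [Metric.cauchySeq_iff]
    intro ε hε
    obtain ⟨N, hN⟩ := hc ε hε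
    refine ⟨N, fun m hm n hn => ?_⟩
    have h1 := (kob_ge_norm (s n) (s m)).trans_lt (hN n hn m hm)
    rw [dist_eq_norm]
    exact (ENNReal.ofReal_lt_ofReal_iff hε).1 h1
  obtain ⟨z, hz⟩ := cauchySeq_tendsto_of_complete hC
  obtain ⟨N, hN⟩ := hc 1 one_pos
  set A := LL (s N) with hA
  have hLL : ∀ n ≥ N, |LL (s n) - A| ≤ 2 := by
    intro n hn
    have h1 := (kob_ge_LL (s N) (s n)).trans_lt (hN N le_rfl n hn)
    have h2 := (ENNReal.ofReal_lt_ofReal_iff one_pos).1 h1
    linarith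
  have hnorm : ∀ n, ‖s n‖ = Real.exp (-Real.exp (LL (s n))) := by
    intro n
    unfold LL
    rw [Real.exp_log (log_neg (hs n)), neg_neg, Real.exp_log (norm_pos_iff.2 (hs n).1)]
  have hup : ∀ n ≥ N, ‖s n‖ ≤ Real.exp (-Real.exp (A - 2)) := by
    intro n hn
    rw [hnorm n]
    have := (abs_le.1 (hLL n hn)).1
    gcongr
    linarith
  have hlo : ∀ n ≥ N, Real.exp (-Real.exp (A + 2)) ≤ ‖s n‖ := by
    intro n hn
    rw [hnorm n]
    have := (abs_le.1 (hLL n hn)).2
    gcongr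
    linarith
  have hzn : Tendsto (fun n => ‖s n‖) atTop (𝓝 ‖z‖) := hz.norm
  have hz1 : ‖z‖ < 1 := by
    have h1 : ‖z‖ ≤ Real.exp (-Real.exp (A - 2)) := le_of_tendsto hzn (eventually_atTop.2 ⟨N, hup⟩)
    have h2 : Real.exp (-Real.exp (A - 2)) < 1 := by
      rw [Real.exp_lt_one_iff]
      have := Real.exp_pos (A - 2)
      linarith
    linarith
  have hz0 : 0 < ‖z‖ := by
    have h1 : Real.exp (-Real.exp (A + 2)) ≤ ‖z‖ := ge_of_tendsto hzn (eventually_atTop.2 ⟨N, hlo⟩)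
    have := Real.exp_pos (-Real.exp (A + 2))
    linarith
  have hzP : z ∈ PD := ⟨norm_pos_iff.1 hz0, hz1⟩
  refine ⟨z, hzP, ?_⟩
  have hL := log_neg hzP
  set m := (-Real.log ‖z‖) / 2 with hm
  have hm0 : 0 < m := by positivity
  have hlogn : Tendsto (fun n => -Real.log ‖s n‖) atTop (𝓝 (-Real.log ‖z‖)) := (hzn.log hz0.ne').neg
  have hev : ∀ᶠ n in atTop, m < -Real.log ‖s n‖ := hlogn.eventually (lt_mem_nhds (by rw [hm]; linarith))
  have hbound : ∀ᶠ n in atTop, kob PD z (s n) ≤ ENNReal.ofReal (‖Complex.log (s n / z)‖ / (2 * m)) := by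
    filter_upwards [hev] with n hn
    have h1 := kob_le_exp (Complex.log z) (Complex.log z + Complex.log (s n / z)) m hm0
      (by rw [Complex.log_re]; linarith) (by
        rw [Complex.add_re, Complex.log_re, Complex.log_re, norm_div, Real.log_div (norm_pos_iff.2 (hs n).1).ne' hz0.ne']
        linarith)
    rw [Complex.exp_add, Complex.exp_log hzP.1, Complex.exp_log (div_ne_zero (hs n).1 hzP.1),
      mul_div_cancel₀ _ hzP.1, add_sub_cancel_left] at h1
    exact h1
  have hlim : Tendsto (fun n => ENNReal.ofReal (‖Complex.log (s n / z)‖ / (2 * m))) atTop (𝓝 0) := by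
    have h1 : Tendsto (fun n => s n / z) atTop (𝓝 1) := by
      have := hz.div_const z
      rwa [div_self hzP.1] at this
    have h2 : Tendsto (fun n => Complex.log (s n / z)) atTop (𝓝 (Complex.log 1)) := by
      refine (continuousAt_clog ?_).tendsto.comp h1
      exact Complex.one_mem_slitPlane
    rw [Complex.log_one] at h2
    have h3 := (h2.norm.div_const (2 * m))
    rw [norm_zero, zero_div] at h3
    have h4 := (ENNReal.continuous_ofReal.tendsto 0).comp h3
    rw [ENNReal.ofReal_zero] at h4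
    exact h4
  exact tendsto_of_tendsto_of_tendsto_of_le_of_le' tendsto_const_nhds hlim (Eventually.of_forall fun _ => bot_le) hbound

theorem PD_complete : KobComplete PD :=
  ⟨fun _ hz _ hw => kob_lt_top hz hw, fun _ _ _ _ h => kob_sep h, kob_cauchy⟩

/-! ### Failure of the sub-mean value inequality -/

theorem lint_ball (ρ : ℝ) (hρ : 0 < ρ) :
    ∫⁻ w in ball (0 : ℂ) ρ, ENNReal.ofReal (‖w‖⁻¹) ≤ ENNReal.ofReal (2 * Real.pi * ρ) := by
  rw [← lintegral_indicator measurableSet_ball, ← Complex.lintegral_comp_polarCoord_symm]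
  have h1 : ∀ p ∈ polarCoord.target, ENNReal.ofReal p.1 • (ball (0 : ℂ) ρ).indicator (fun w => ENNReal.ofReal (‖w‖⁻¹)) (Complex.polarCoord.symm p) ≤
      (Ioo (0 : ℝ) ρ ×ˢ Ioo (-Real.pi) Real.pi).indicator (fun _ => (1 : ℝ≥0∞)) p := by
    intro p hp
    rw [polarCoord_target] at hp
    have hp1 : 0 < p.1 := hp.1
    have hn : ‖Complex.polarCoord.symm p‖ = p.1 := by rw [Complex.norm_polarCoord_symm, abs_of_pos hp1]
    by_cases h : p.1 < ρ
    · rw [indicator_of_mem (by rw [mem_ball_zero_iff, hn]; exact h), indicator_of_mem (show p ∈ Ioo (0 : ℝ) ρ ×ˢ Ioo (-Real.pi) Real.pi from ⟨⟨hp1, h⟩, hp.2⟩), hn, smul_eq_mul,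
        ← ENNReal.ofReal_mul hp1.le, mul_inv_cancel₀ hp1.ne', ENNReal.ofReal_one]
    · rw [indicator_of_notMem (by rw [mem_ball_zero_iff, hn]; exact h), smul_zero]
      exact bot_le
  have hms : MeasurableSet (Ioo (0 : ℝ) ρ ×ˢ Ioo (-Real.pi) Real.pi) := measurableSet_Ioo.prod measurableSet_Ioo
  calc _ ≤ ∫⁻ p in polarCoord.target, (Ioo (0 : ℝ) ρ ×ˢ Ioo (-Real.pi) Real.pi).indicator (fun _ => (1 : ℝ≥0∞)) p :=
        setLIntegral_mono (measurable_const.indicator hms) h1
    _ ≤ ∫⁻ p, (Ioo (0 : ℝ) ρ ×ˢ Ioo (-Real.pi) Real.pi).indicator (fun _ => (1 : ℝ≥0∞)) p := setLIntegral_le_lintegral _ _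
    _ = volume (Ioo (0 : ℝ) ρ ×ˢ Ioo (-Real.pi) Real.pi) := by rw [lintegral_indicator_const hms, one_mul]
    _ = ENNReal.ofReal (2 * Real.pi * ρ) := by
        rw [Measure.volume_eq_prod, Measure.prod_prod, Real.volume_Ioo, Real.volume_Ioo, ← ENNReal.ofReal_mul (by linarith)]
        congr 1
        ring

theorem vol_annulus (ρ : ℝ) (hρ : 0 < ρ) :
    ENNReal.ofReal (3 / 4 * Real.pi * ρ ^ 2) ≤ volume (ball (0 : ℂ) ρ \ closedBall 0 (ρ / 2)) := by
  refine le_trans ?_ (le_measure_sdiff)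
  rw [Complex.volume_ball, Complex.volume_closedBall]
  have hpi := Real.pi_pos
  have h1 : (NNReal.pi : ℝ≥0∞) = ENNReal.ofReal Real.pi := by
    rw [ENNReal.ofReal, ← NNReal.coe_real_pi, Real.toNNReal_coe]
  rw [h1, ← ENNReal.ofReal_pow hρ.le, ← ENNReal.ofReal_pow (by positivity), ← ENNReal.ofReal_mul (by positivity),
    ← ENNReal.ofReal_mul (by positivity), ← ENNReal.ofReal_sub _ (by positivity)]
  apply ENNReal.ofReal_le_ofReal
  apply le_of_eq
  ring

theorem annulus_sub (r L : ℝ) (hr : 0 < r) (hr2 : r ≤ 1 / 2) (hL : Real.pi < r * L) :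
    ball (0 : ℂ) (Real.exp (-((1 - r / 2) * L))) \ closedBall 0 (Real.exp (-((1 - r / 2) * L)) / 2) ⊆
      kobBall PD (Real.exp (-L) : ℝ) r := by
  have hpi := Real.pi_pos
  have hpi3 := Real.pi_gt_three
  have hL0 : 0 < L := by
    by_contra h
    push Not at h
    nlinarith
  set ρ := Real.exp (-((1 - r / 2) * L)) with hρ
  have hρ0 : 0 < ρ := Real.exp_pos _
  intro w hw
  have hw1 : ‖w‖ < ρ := mem_ball_zero_iff.1 hw.1
  have hw2 : ρ / 2 < ‖w‖ := by
    have := hw.2
    rw [mem_closedBall_zero_iff] at this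
    exact not_le.1 this
  have hwpos : 0 < ‖w‖ := by linarith [half_pos hρ0]
  have hw0 : w ≠ 0 := norm_pos_iff.1 hwpos
  have hρ1 : ρ < 1 := by
    rw [hρ, Real.exp_lt_one_iff]
    have : 0 < (1 - r / 2) * L := by refine _root_.mul_pos ?_ hL0; linarith
    linarith
  have hlogρ : Real.log ρ = -((1 - r / 2) * L) := by rw [hρ, Real.log_exp]
  have hlw1 : Real.log ‖w‖ < -((1 - r / 2) * L) := by
    rw [← hlogρ]; exact Real.log_lt_log hwpos hw1
  have hlw2 : -((1 - r / 2) * L) - 1 < Real.log ‖w‖ := by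
    have h1 : Real.log (ρ / 2) < Real.log ‖w‖ := Real.log_lt_log (by positivity) hw2
    rw [Real.log_div hρ0.ne' (by norm_num), hlogρ] at h1
    have := Real.log_two_lt_d9
    linarith
  refine ⟨⟨hw0, by linarith⟩, ?_⟩
  have h1 := kob_le_exp (((-L : ℝ) : ℂ)) (Complex.log w) ((1 - r / 2) * L) (by refine _root_.mul_pos ?_ hL0; linarith)
    (by rw [Complex.ofReal_re]; nlinarith) (by rw [Complex.log_re]; linarith)
  rw [Complex.exp_log hw0, ← Complex.ofReal_exp] at h1
  refine h1.trans_lt ?_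
  rw [ENNReal.ofReal_lt_ofReal_iff hr, div_lt_iff₀ (by refine _root_.mul_pos two_pos (_root_.mul_pos ?_ hL0); linarith)]
  have h2 : ‖Complex.log w - ((-L : ℝ) : ℂ)‖ ≤ |(Complex.log w - ((-L : ℝ) : ℂ)).re| + |(Complex.log w - ((-L : ℝ) : ℂ)).im| :=
    Complex.norm_le_abs_re_add_abs_im _
  rw [Complex.sub_re, Complex.sub_im, Complex.ofReal_re, Complex.ofReal_im, sub_zero, Complex.log_re, Complex.log_im] at h2
  have h3 := Complex.abs_arg_le_pi w
  have h4 : |Real.log ‖w‖ - -L| ≤ r / 2 * L := by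
    rw [abs_le]
    constructor <;> nlinarith
  nlinarith [mul_pos hr hL0]

theorem not_subMean : ¬ SubMean PD 1 := by
  rintro ⟨C, hC, r₀, hr₀, H⟩
  set r := min r₀ 1 / 2 with hr
  have hr0 : 0 < r := by rw [hr]; have := lt_min hr₀ one_pos; positivity
  have hr1 : r ≤ 1 / 2 := by rw [hr]; have := min_le_right r₀ 1; linarith
  have hr2 : r < r₀ := by rw [hr]; have := min_le_left r₀ 1; linarith
  set L := (8 * C + 8) / r with hL
  have hrL : r * L = 8 * C + 8 := by rw [hL]; field_simp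
  have hL0 : 0 < L := by positivity
  have hpi := Real.pi_pos
  have hpi4 : Real.pi < r * L := by
    rw [hrL]; have := Real.pi_lt_four; linarith
  set ρ := Real.exp (-((1 - r / 2) * L)) with hρ
  have hρ0 : 0 < ρ := Real.exp_pos _
  have hsub := annulus_sub r L hr0 hr1 hpi4
  set B := kobBall PD (Real.exp (-L) : ℝ) r with hB
  have hBsub : B ⊆ ball (0 : ℂ) 1 := fun w hw => by
    rw [mem_ball_zero_iff]; exact hw.1.2
  have hVfin : volume B ≠ ∞ := ((measure_mono hBsub).trans_lt measure_ball_lt_top).ne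
  set V := (volume B).toReal with hV
  have hVe : volume B = ENNReal.ofReal V := (ENNReal.ofReal_toReal hVfin).symm
  have hVlow : 3 / 4 * Real.pi * ρ ^ 2 ≤ V := by
    have h1 := (vol_annulus ρ hρ0).trans (measure_mono hsub)
    rw [hVe] at h1
    exact (ENNReal.ofReal_le_ofReal_iff ENNReal.toReal_nonneg).1 h1
  have hV0 : 0 < V := lt_of_lt_of_le (by positivity) hVlow
  have hf : DifferentiableOn ℂ (fun w : ℂ => w⁻¹) PD := fun w hw => (differentiableAt_inv hw.1).differentiableWithinAt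
  have hz : ((Real.exp (-L) : ℝ) : ℂ) ∈ PD := by
    refine ⟨?_, ?_⟩
    · exact_mod_cast (Real.exp_pos _).ne'
    · rw [Complex.norm_real, Real.norm_eq_abs, abs_of_pos (Real.exp_pos _), Real.exp_lt_one_iff]
      linarith
  have h := H (fun w => w⁻¹) hf _ hz r hr0 hr2
  simp only [Real.rpow_one, norm_inv] at h
  rw [Complex.norm_real, Real.norm_eq_abs, abs_of_pos (Real.exp_pos _), ← hB, hVe] at h
  have hint : ∫⁻ w in B, ENNReal.ofReal (‖w‖⁻¹) ≤ ENNReal.ofReal (2 * Real.pi * ρ + ρ⁻¹ * V) := by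
    have hms : MeasurableSet (ball (0 : ℂ) ρ) := measurableSet_ball
    rw [← lintegral_inter_add_sdiff (fun w : ℂ => ENNReal.ofReal (‖w‖⁻¹)) B hms]
    rw [ENNReal.ofReal_add (by positivity) (by positivity)]
    refine add_le_add ?_ ?_
    · exact (lintegral_mono_set inter_subset_right).trans (lint_ball ρ hρ0)
    · have h1 : ∫⁻ w in B \ ball (0 : ℂ) ρ, ENNReal.ofReal (‖w‖⁻¹) ≤ ∫⁻ _ in B \ ball (0 : ℂ) ρ, ENNReal.ofReal ρ⁻¹ := by
        refine setLIntegral_mono measurable_const fun w hw => ?_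
        apply ENNReal.ofReal_le_ofReal
        have : ρ ≤ ‖w‖ := by
          have := hw.2
          rw [mem_ball_zero_iff] at this
          exact not_lt.1 this
        gcongr
      refine h1.trans ?_
      rw [setLIntegral_const, ENNReal.ofReal_mul (by positivity), ← hVe]
      gcongr
      exact sdiff_subset
  have h2 := h.trans (mul_le_mul_right hint (ENNReal.ofReal C))
  rw [← ENNReal.ofReal_mul (by positivity), ← ENNReal.ofReal_mul hC.le,
    ENNReal.ofReal_le_ofReal_iff (by positivity)] at h2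
  have h3 : 2 * Real.pi * ρ ≤ 8 / 3 * (ρ⁻¹ * V) := by
    have h4 : 8 / 3 * (ρ⁻¹ * (3 / 4 * Real.pi * ρ ^ 2)) ≤ 8 / 3 * (ρ⁻¹ * V) := by gcongr
    refine le_trans (le_of_eq ?_) h4
    field_simp
    ring
  have h5 : (Real.exp (-L))⁻¹ * V ≤ C * (11 / 3 * (ρ⁻¹ * V)) := by
    refine h2.trans ?_
    gcongr
    linarith
  have h6 : (Real.exp (-L))⁻¹ ≤ C * (11 / 3) * ρ⁻¹ := by
    have h7 : (Real.exp (-L))⁻¹ * V ≤ (C * (11 / 3) * ρ⁻¹) * V := by
      refine h5.trans (le_of_eq ?_); ring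
    exact le_of_mul_le_mul_right h7 hV0
  rw [hρ, ← Real.exp_neg, ← Real.exp_neg, neg_neg, neg_neg] at h6
  have h8 : Real.exp L = Real.exp (r / 2 * L) * Real.exp ((1 - r / 2) * L) := by
    rw [← Real.exp_add]; congr 1; ring
  rw [h8] at h6
  have h9 : Real.exp (r / 2 * L) ≤ C * (11 / 3) := le_of_mul_le_mul_right h6 (Real.exp_pos _)
  have h10 := Real.add_one_le_exp (r / 2 * L)
  nlinarith

/-- The sub-mean value inequality fails on a bounded Kobayashi complete plane domain. -/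
theorem result : ∃ Ω : Set ℂ, IsOpen Ω ∧ IsConnected Ω ∧ Bornology.IsBounded Ω ∧ KobComplete Ω ∧
    ∃ p : ℝ, 0 < p ∧ ¬ SubMean Ω p :=
  ⟨PD, PD_isOpen, PD_conn, PD_bdd, PD_complete, 1, one_pos, not_subMean⟩

end Pool.Agent.Results.MP_8e2100_an.PuncturedDisc
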